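import Mathlib
import Pool.Agent.Lib.MP_80c3a1_pr.Prob

open MeasureTheory ProbabilityTheory UpperHalfPlane Filter
open scoped ENNReal UpperHalfPlane Topology
open Pool.Agent.Lib.MP_80c3a1_pr

namespace Pool.Agent.Results.MP_80c3a1_pr.Tightness

/-- On the regularity event the deviation is bounded, uniformly in `r`. -/
lemma dev_le {S : Set Disc} {ρ : ℝ} (h : Regular (fun v : S ↦ psi v) ρ) (hρ : 300 ≤ ρ)
    {M : ℕ} (hM : (4 * (2 * ρ) + 6) * Real.exp (2 * ρ / 10) ≤ M) (r : Set.Ico (0 : ℝ) 1) :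
    Dev S r ≤ M := by
  obtain ⟨r, hr0, hr1⟩ := r
  unfold Dev deviation
  refine iSup_le fun x ↦ iSup_le fun y ↦ iSup_le fun c ↦ iSup_le fun hx ↦ iSup_le fun hy ↦
    iSup_le fun hc ↦ iSup_le fun γ ↦ iSup_le fun hγ ↦ ?_
  set s : ℝ := Real.log ((1 + r) / (1 - r)) with hs
  have hq : 1 ≤ (1 + r) / (1 - r) := by
    rw [le_div_iff₀ (by linarith)]; linarith
  have hs0 : 0 ≤ s := Real.log_nonneg hq
  have hexp : Real.exp s = (1 + r) / (1 - r) := Real.exp_log (by linarith)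
  have hexp' : Real.exp (-s) = (1 + -r) / (1 - -r) := by
    rw [Real.exp_neg, hexp, inv_div]; ring
  have hcell : ∀ (z : Disc) (v : S), z ∈ voronoiCell S v →
      psi z ∈ cellP (fun v : S ↦ psi v) v := fun z v hz ↦ (voronoiCell_iff S v z).1 hz
  have hx' := hcell _ _ hx
  have hy' := hcell _ _ hy
  have hc' := hcell _ _ hc
  rw [psi_real (r := -r) (s := -s) (by rw [abs_neg, abs_of_nonneg hr0]; exact hr1) hexp' _
    (by push_cast; rfl)] at hx'
  rw [psi_real (r := r) (s := s) (by rw [abs_of_nonneg hr0]; exact hr1) hexp _ rfl] at hy'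
  rw [psi_real (r := 0) (s := 0) (by simp) (by simp) _ (by simp), fermi_zero_zero] at hc'
  have key : ∀ G : SimpleGraph S, G = VG (fun v : S ↦ psi v) → ∀ γ : G.Walk x y,
      γ.length = G.dist x y → ∃ w ∈ γ.support, G.Reachable w c ∧
        (G.dist w c : ℝ) < (4 * (2 * ρ) + 6) * Real.exp (2 * ρ / 10) := by
    intro G hG γ hγ
    subst hG
    exact h.geodesic_near' hρ hx' hy' hc' hs0 γ hγ
  obtain ⟨w, hw, hreach, hdist⟩ := key _ (voronoiGraph_eq S) γ hγ
  refine (iInf₂_le w hw).trans ?_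
  have h1 : (voronoiGraph S).dist w c ≤ M := by
    have : ((voronoiGraph S).dist w c : ℝ) ≤ M := hdist.le.trans hM
    exact_mod_cast this
  rw [← hreach.coe_dist_eq_edist]
  exact_mod_cast h1

/-- The family of deviations `D_r`, `0 ≤ r < 1`, of the geodesics of the hyperbolic
Poisson-Voronoi graph is tight. -/
theorem result {Ω : Type*} [MeasurableSpace Ω] {P : Measure Ω} [IsProbabilityMeasure P]
    {lam : ℝ} (hlam : 0 < lam) {S : Ω → Set Disc}
    (hS : IsPoissonProcess P (ENNReal.ofReal lam • harea) S) :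
    (∀ᵐ ω ∂P, (voronoiGraph (S ω)).Connected ∧ ∀ z, ∃ x : S ω, z ∈ voronoiCell (S ω) x) ∧
    Tendsto (fun M : ℕ ↦ ⨆ r : Set.Ico (0 : ℝ) 1, P {ω | (M : ℕ∞) < Dev (S ω) r})
      atTop (𝓝 0) := by
  constructor
  · rw [ae_iff]
    refine le_antisymm (le_of_forall_gt_imp_ge_of_dense fun ε hε ↦ ?_) (zero_le)
    obtain ⟨ρ, hρ, hP⟩ := prob_not_regular_le hS hlam hε
    refine (measure_mono ?_).trans hP
    intro ω hω
    by_contra h
    rw [Set.mem_ofPred_eq, not_not] at h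
    apply hω
    have hne := h.nonempty
    refine ⟨?_, fun z ↦ ?_⟩
    · rw [voronoiGraph_eq]
      exact h.connected (by linarith)
    · obtain ⟨x, hx⟩ := exists_mem_cellP h.locFin (psi z)
      exact ⟨x, (voronoiCell_iff _ _ _).2 hx⟩
  · rw [ENNReal.tendsto_atTop_zero]
    intro ε hε
    obtain ⟨ρ, hρ, hP⟩ := prob_not_regular_le hS hlam hε
    obtain ⟨M0, hM0⟩ := exists_nat_ge ((4 * (2 * ρ) + 6) * Real.exp (2 * ρ / 10))
    refine ⟨M0, fun M hM ↦ iSup_le fun r ↦ (measure_mono ?_).trans hP⟩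
    intro ω hω
    rw [Set.mem_ofPred_eq] at hω ⊢
    intro h
    have h1 := dev_le h hρ (M := M) (hM0.trans (by exact_mod_cast hM)) r
    exact absurd hω (not_lt.2 h1)

end Pool.Agent.Results.MP_80c3a1_pr.Tightness
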